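import Pool.Agent.J4H12.TB.Stm

set_option autoImplicit false

/-!
# Project TB: (EXN)
-/

namespace Pool.Agent.J4H73.TB

open Filter Topology Set Pool.Agent.J4H12.TB

theorem unit_sub (x y : ℂ) (hx : x ≠ 0) (hy : y ≠ 0) : ‖y / ‖y‖ - x / ‖x‖‖ ≤ 2 * ‖y - x‖ / ‖x‖ := by
  have hx' : 0 < ‖x‖ := norm_pos_iff.2 hx
  have hy' : 0 < ‖y‖ := norm_pos_iff.2 hy
  have hxc : ((‖x‖ : ℝ) : ℂ) ≠ 0 := by exact_mod_cast hx'.ne'
  have hyc : ((‖y‖ : ℝ) : ℂ) ≠ 0 := by exact_mod_cast hy'.ne'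
  have e : y / ‖y‖ - x / ‖x‖ = (y - x) / ‖x‖ + (y / ‖y‖) * (((‖x‖ - ‖y‖ : ℝ) : ℂ) / ‖x‖) := by
    push_cast
    field_simp
    ring
  rw [e]
  refine (norm_add_le _ _).trans ?_
  have h1 : ‖(y - x) / (‖x‖ : ℂ)‖ = ‖y - x‖ / ‖x‖ := by
    rw [norm_div, Complex.norm_real, norm_norm]
  have h2 : ‖(y / ‖y‖) * (((‖x‖ - ‖y‖ : ℝ) : ℂ) / ‖x‖)‖ ≤ ‖y - x‖ / ‖x‖ := by
    rw [norm_mul, norm_div, norm_div, Complex.norm_real, Complex.norm_real, Complex.norm_real, norm_norm,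
      norm_norm, div_self hy'.ne', one_mul]
    apply div_le_div_of_nonneg_right _ hx'.le
    rw [Real.norm_eq_abs, norm_sub_rev]
    exact abs_norm_sub_norm_le x y
  rw [h1]
  calc ‖y - x‖ / ‖x‖ + ‖(y / ‖y‖) * (((‖x‖ - ‖y‖ : ℝ) : ℂ) / ‖x‖)‖
      ≤ ‖y - x‖ / ‖x‖ + ‖y - x‖ / ‖x‖ := by linarith
    _ = 2 * ‖y - x‖ / ‖x‖ := by ring

/-- the estimate for one pair -/
theorem exn_one (hB : S_BAS) (hP : S_PAIR) (hU : S_EXU) (hD : S_DUR) (hN : S_CNT) (m : Fin 3 → ℝ)
    (hm : ∀ a, 0 < m a) (V : ℝ) (hV : 0 < V) (p : Fin 3) :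
    ∃ δ₀ : ℝ, 0 < δ₀ ∧ ∀ δ : ℝ, 0 < δ → δ ≤ δ₀ →
      ∃ K : ℕ, ∀ (E : ℝ) (q v : Fin 3 → ℝ → ℂ), Sol m E q v → Unb q → Spd V m E q v →
      ∀ (n : ℕ) (τ : ℕ → ℝ) (lab : ℕ → Fin 3), Alt q n τ lab → Near m E q (τ 0) (τ n) →
      Close m q δ p (τ 0) (τ n) → n ≤ K := by
  obtain ⟨CB, hCB, hBas⟩ := hB m hm
  obtain ⟨μ, ν, M, C, L, κ, c, hPair⟩ := hP m hm p
  by_cases hpos : 0 < μ ∧ 0 < ν ∧ 0 < M ∧ 0 < C ∧ 0 < L ∧ 0 < κ ∧ 0 < c
  swap
  · refine ⟨1, one_pos, fun δ _ _ => ⟨0, fun E q v hs hu _ n τ lab _ _ _ => ?_⟩⟩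
    exfalso
    apply hpos
    obtain ⟨r, w, X, Y, F, G, P, hp⟩ := hPair E q v hs hu
    exact ⟨hp.two.μ0, hp.two.ν0, hp.two.M0, hp.two.C0, hp.L0, hp.κ0, hp.c0⟩
  obtain ⟨hμ, hν, hM, hC, hL, hκ, hc⟩ := hpos
  obtain ⟨κU, KU, hκU, hKU, hEXU⟩ := hU μ ν M C L hμ hν hM hC hL
  obtain ⟨κD, KD, hκD, hKD, hDUR⟩ := hD μ ν M C L hμ hν hM hC hL
  -- the constants
  set Λ : ℝ := 3 / 2 * √(2 * V) with hΛ
  have hΛ0 : 0 < Λ := by positivity
  set CY : ℝ := √(2 / ν * (1 + (C + μ * L) / c)) with hCY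
  have hCY0 : 0 ≤ CY := Real.sqrt_nonneg _
  set d₀ : ℝ := min (min 1 κ) (min (min (c * κU) (c * κD)) (min (1 / (8 * KD * Λ)) (1 / (4 * KD)))) with hd₀
  have hd₀0 : 0 < d₀ := by
    rw [hd₀]
    refine lt_min (lt_min one_pos hκ) (lt_min (lt_min (by positivity) (by positivity)) (lt_min (by positivity)
      (by positivity)))
  refine ⟨d₀ / 4, by positivity, fun δ hδ hδ0 => ?_⟩
  have h4δ : 4 * δ ≤ d₀ := by linarith
  have e1 : 4 * δ ≤ 1 := h4δ.trans ((min_le_left _ _).trans (min_le_left _ _))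
  have e2 : 4 * δ ≤ κ := h4δ.trans ((min_le_left _ _).trans (min_le_right _ _))
  have e3 : 4 * δ ≤ c * κU := h4δ.trans ((min_le_right _ _).trans ((min_le_left _ _).trans (min_le_left _ _)))
  have e4 : 4 * δ ≤ c * κD := h4δ.trans ((min_le_right _ _).trans ((min_le_left _ _).trans (min_le_right _ _)))
  have e5 : 4 * δ ≤ 1 / (8 * KD * Λ) :=
    h4δ.trans ((min_le_right _ _).trans ((min_le_right _ _).trans (min_le_left _ _)))
  have e6 : 4 * δ ≤ 1 / (4 * KD) :=
    h4δ.trans ((min_le_right _ _).trans ((min_le_right _ _).trans (min_le_right _ _)))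
  set ε : ℝ := 4 * δ * KD with hε
  have hε0 : 0 < ε := by positivity
  have hεΛ : ε * Λ ≤ 1 / 8 := by
    rw [le_div_iff₀ (by positivity)] at e5
    rw [hε]
    linarith
  have hε1 : 4 * ε ≤ 1 := by
    rw [le_div_iff₀ (by positivity)] at e6
    rw [hε]
    linarith
  obtain ⟨K, hK⟩ := exists_nat_ge (KU + KU * (2 / c ^ 3) + 8 * CY / c)
  refine ⟨K, fun E q v hs hu hsp n τ lab ha hnear hclose => ?_⟩
  have hb := hBas E q v hs
  have hE := hs.Epos
  obtain ⟨r, w, X, Y, F, G, P, hp⟩ := hPair E q v hs hu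
  have hab : τ 0 ≤ τ n := by
    obtain ⟨h1, -, -⟩ := ha
    have : ∀ j, j ≤ n → τ 0 ≤ τ j := by
      intro j
      induction j with
      | zero => exact fun _ => le_rfl
      | succ k ih => exact fun hk => (ih (by omega)).trans (h1 k (by omega)).le
    exact this n le_rfl
  set a := τ 0 with ha0
  set b := τ n with hb0
  have ρ0 := hb.rpos
  -- basic facts on the interval
  have hDκ : ∀ x ∈ Icc a b, D q p x ≤ κ * rho m q x := fun x hx =>
    (hclose x hx).trans (mul_le_mul_of_nonneg_right e2 (ρ0 x).le)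
  have hXlo : ∀ x ∈ Icc a b, c * rho m q x ≤ ‖X x‖ := fun x hx => hp.Xlo x (hDκ x hx)
  have hXpos : ∀ x ∈ Icc a b, 0 < ‖X x‖ := fun x hx => lt_of_lt_of_le (mul_pos hc (ρ0 x)) (hXlo x hx)
  have hrU : ∀ x ∈ Icc a b, ‖r x‖ ≤ κU * ‖X x‖ ∧ -L ≤ eps M r w x * ‖X x‖ := by
    intro x hx
    refine ⟨?_, hp.esc x⟩
    rw [hp.hr x]
    calc D q p x ≤ 4 * δ * rho m q x := hclose x hx
      _ ≤ (c * κU) * rho m q x := mul_le_mul_of_nonneg_right e3 (ρ0 x).le
      _ = κU * (c * rho m q x) := by ring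
      _ ≤ κU * ‖X x‖ := mul_le_mul_of_nonneg_left (hXlo x hx) hκU.le
  have hrD : ∀ x ∈ Icc a b, ‖r x‖ ≤ κD * ‖X x‖ ∧ -L ≤ eps M r w x * ‖X x‖ := by
    intro x hx
    refine ⟨?_, hp.esc x⟩
    rw [hp.hr x]
    calc D q p x ≤ 4 * δ * rho m q x := hclose x hx
      _ ≤ (c * κD) * rho m q x := mul_le_mul_of_nonneg_right e4 (ρ0 x).le
      _ = κD * (c * rho m q x) := by ring
      _ ≤ κD * ‖X x‖ := mul_le_mul_of_nonneg_left (hXlo x hx) hκD.le
  -- the function f = ρ ^ (3/2)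
  set f : ℝ → ℝ := fun t => rho m q t * √(rho m q t) with hf
  have hf0 : ∀ t, 0 < f t := fun t => mul_pos (ρ0 t) (Real.sqrt_pos.2 (ρ0 t))
  have hfd : ∀ t, HasDerivAt f (3 / 2 * (J m q v t / √(rho m q t))) t := by
    intro t
    have h1 := hb.drho t
    have h2 := h1.sqrt (ρ0 t).ne'
    have h3 := h1.mul h2
    refine h3.congr_deriv ?_
    have h4 := Real.sqrt_pos.2 (ρ0 t)
    have h5 := Real.mul_self_sqrt (ρ0 t).le
    have h6 := (ρ0 t).ne'
    have h7 : rho m q t = √(rho m q t) * √(rho m q t) := h5.symm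
    generalize √(rho m q t) = s at *
    rw [h7]
    field_simp
    ring
  have hfb : ∀ t ∈ Icc a b, |3 / 2 * (J m q v t / √(rho m q t))| ≤ Λ := by
    intro t ht
    rw [abs_mul, abs_of_pos (by norm_num : (0 : ℝ) < 3 / 2), hΛ]
    apply mul_le_mul_of_nonneg_left _ (by norm_num)
    apply Real.abs_le_sqrt
    have h1 := hsp t
    have h2 := hnear t ht
    have h3 := ρ0 t
    rw [div_pow, Real.sq_sqrt h3.le]
    rw [div_pow] at h1
    have h4 : J m q v t ^ 2 / rho m q t = rho m q t * (J m q v t ^ 2 / rho m q t ^ 2) := by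
      field_simp
    rw [h4]
    calc rho m q t * (J m q v t ^ 2 / rho m q t ^ 2) ≤ rho m q t * (V * (E + 1 / rho m q t)) :=
          mul_le_mul_of_nonneg_left h1 h3.le
      _ = V * (E * rho m q t + 1) := by
          field_simp
      _ ≤ 2 * V := by nlinarith
  have hfL : ∀ x ∈ Icc a b, |f x - f a| ≤ Λ * (x - a) := by
    intro x hx
    have h := Convex.norm_image_sub_le_of_norm_hasDerivWithin_le (f := f)
      (f' := fun t => 3 / 2 * (J m q v t / √(rho m q t))) (s := Icc a b) (C := Λ) (x := a) (y := x)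
      (fun t _ => (hfd t).hasDerivWithinAt) (fun t ht => by rw [Real.norm_eq_abs]; exact hfb t ht)
      (convex_Icc a b) (left_mem_Icc.2 hab) hx
    rw [Real.norm_eq_abs, Real.norm_eq_abs, abs_of_nonneg (sub_nonneg.2 hx.1)] at h
    exact h
  have hrf : ∀ x ∈ Icc a b, ‖r x‖ * √‖r x‖ ≤ 4 * δ * f x := by
    intro x hx
    have h1 := hclose x hx
    rw [hp.hr x]
    have h2 : D q p x ≤ rho m q x := h1.trans (by nlinarith [ρ0 x])
    calc D q p x * √(D q p x) ≤ (4 * δ * rho m q x) * √(rho m q x) := by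
          apply mul_le_mul h1 (Real.sqrt_le_sqrt h2) (Real.sqrt_nonneg _)
          have := ρ0 x
          positivity
      _ = 4 * δ * f x := by rw [hf]; ring
  have hdur : b - a ≤ ε * (f a + f b) := by
    have h1 := hDUR E r w X Y F G P hp.two a b hab hrD
    have h2 := hrf a (left_mem_Icc.2 hab)
    have h3 := hrf b (right_mem_Icc.2 hab)
    calc b - a ≤ KD * (‖r a‖ * √‖r a‖ + ‖r b‖ * √‖r b‖) := h1
      _ ≤ KD * (4 * δ * f a + 4 * δ * f b) := mul_le_mul_of_nonneg_left (by linarith) hKD.le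
      _ = ε * (f a + f b) := by rw [hε]; ring
  have hlen : b - a ≤ 4 * ε * f a := by
    have h1 := hfL b (right_mem_Icc.2 hab)
    have h2 := (abs_le.1 h1).2
    have h3 : ε * (f a + f b) ≤ ε * (2 * f a + Λ * (b - a)) := mul_le_mul_of_nonneg_left (by linarith) hε0.le
    have h4 : ε * (2 * f a + Λ * (b - a)) = 2 * ε * f a + (ε * Λ) * (b - a) := by ring
    have h5 : (ε * Λ) * (b - a) ≤ 1 / 8 * (b - a) := mul_le_mul_of_nonneg_right hεΛ (by linarith)
    nlinarith [hf0 a, mul_pos hε0 (hf0 a)]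
  have hfx : ∀ x ∈ Icc a b, f a / 2 ≤ f x := by
    intro x hx
    have h1 := hfL x hx
    have h2 := (abs_le.1 h1).1
    have h3 : Λ * (x - a) ≤ Λ * (4 * ε * f a) := mul_le_mul_of_nonneg_left (by linarith [hx.2]) hΛ0.le
    have h4 : Λ * (4 * ε * f a) = 4 * (ε * Λ) * f a := by ring
    have h5 : 4 * (ε * Λ) * f a ≤ 4 * (1 / 8) * f a := by
      apply mul_le_mul_of_nonneg_right _ (hf0 a).le
      linarith
    linarith
  have hρx : ∀ x ∈ Icc a b, rho m q a / 2 ≤ rho m q x := by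
    intro x hx
    by_contra hcon
    push Not at hcon
    have h1 := hfx x hx
    have h2 : f x < f a / 2 := by
      rw [hf]
      calc rho m q x * √(rho m q x) ≤ rho m q x * √(rho m q a) := by
            apply mul_le_mul_of_nonneg_left _ (ρ0 x).le
            apply Real.sqrt_le_sqrt
            linarith [ρ0 a]
        _ < rho m q a / 2 * √(rho m q a) := mul_lt_mul_of_pos_right hcon (Real.sqrt_pos.2 (ρ0 a))
        _ = rho m q a * √(rho m q a) / 2 := by ring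
    linarith
  have hsq : ∀ x ∈ Icc a b, √(rho m q a) / 2 ≤ √(rho m q x) := by
    intro x hx
    apply Real.le_sqrt_of_sq_le
    rw [div_pow, Real.sq_sqrt (ρ0 a).le]
    linarith [hρx x hx, ρ0 a]
  -- EXU
  have hfa := hf0 a
  obtain ⟨Ψ, hΨ1, hΨ2⟩ := hEXU E r w X Y F G P hp.two a b hab hrU (fun x => 2 / c ^ 3 / f a * x)
    (fun _ => 2 / c ^ 3 / f a) (by
      intro x hx
      refine ⟨by simpa using (hasDerivAt_id x).const_mul (2 / c ^ 3 / f a), ?_⟩
      have h1 := hrf x hx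
      have h2 : (c * rho m q x) ^ 3 ≤ ‖X x‖ ^ 3 :=
        pow_le_pow_left₀ (mul_pos hc (ρ0 x)).le (hXlo x hx) 3
      have h3 : 0 < (c * rho m q x) ^ 3 := pow_pos (mul_pos hc (ρ0 x)) 3
      have h4 : ‖r x‖ * √‖r x‖ ≤ f x := h1.trans (by nlinarith [hf0 x])
      have h5 : f x ^ 2 = rho m q x ^ 3 := by
        rw [hf]
        simp only
        rw [mul_pow, Real.sq_sqrt (ρ0 x).le]
        ring
      calc ‖r x‖ * √‖r x‖ / ‖X x‖ ^ 3 ≤ f x / (c * rho m q x) ^ 3 :=
            div_le_div₀ (hf0 x).le h4 h3 h2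
        _ = 1 / (c ^ 3 * f x) := by
            rw [mul_pow, ← h5]
            have := (hf0 x).ne'
            field_simp
        _ ≤ 1 / (c ^ 3 * (f a / 2)) := by
            apply one_div_le_one_div_of_le (by positivity)
            exact mul_le_mul_of_nonneg_left (hfx x hx) (by positivity)
        _ = 2 / c ^ 3 / f a := by
            field_simp)
  have hΨb : Ψ b - Ψ a ≤ KU + KU * (2 / c ^ 3) := by
    refine hΨ1.trans ?_
    have h1 : 2 / c ^ 3 / f a * b - 2 / c ^ 3 / f a * a ≤ 2 / c ^ 3 := by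
      have h2 : 2 / c ^ 3 / f a * b - 2 / c ^ 3 / f a * a = 2 / c ^ 3 * ((b - a) / f a) := by ring
      rw [h2]
      have h3 : (b - a) / f a ≤ 1 := by
        rw [div_le_one hfa]
        nlinarith
      calc 2 / c ^ 3 * ((b - a) / f a) ≤ 2 / c ^ 3 * 1 := mul_le_mul_of_nonneg_left h3 (by positivity)
        _ = 2 / c ^ 3 := mul_one _
    have h2 := mul_le_mul_of_nonneg_left h1 hKU.le
    linarith
  -- the speed of X
  have hY : ∀ x ∈ Icc a b, ‖Y x‖ ≤ CY * (2 / √(rho m q a)) := by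
    intro x hx
    have h1 := hp.two.en x
    have h2 := (hp.two.far x (hp.two' x (hDκ x hx))).1
    have h3 := hp.esc x
    have h4 := hXlo x hx
    have h5 := hXpos x hx
    have h6 := hnear x hx
    have h7 := ρ0 x
    have h8 : -eps M r w x ≤ L / ‖X x‖ := by
      rw [le_div_iff₀ h5]
      linarith
    have h9 : 1 / ‖X x‖ ≤ 1 / (c * rho m q x) := one_div_le_one_div_of_le (mul_pos hc h7) h4
    have h10 : ν * ‖Y x‖ ^ 2 / 2 ≤ (1 + (C + μ * L) / c) / rho m q x := by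
      have k1 : ν * ‖Y x‖ ^ 2 / 2 = E + P x - μ * eps M r w x := by
        unfold eps
        linarith
      have k2 : E ≤ 1 / rho m q x := by
        rw [le_div_iff₀ h7]
        exact h6
      have k3 : P x ≤ C * (1 / (c * rho m q x)) := by
        calc P x ≤ C / ‖X x‖ := h2
          _ = C * (1 / ‖X x‖) := by ring
          _ ≤ _ := mul_le_mul_of_nonneg_left h9 hC.le
      have k4 : -(μ * eps M r w x) ≤ μ * (L * (1 / (c * rho m q x))) := by
        calc -(μ * eps M r w x) = μ * (-eps M r w x) := by ring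
          _ ≤ μ * (L / ‖X x‖) := mul_le_mul_of_nonneg_left h8 hμ.le
          _ = μ * (L * (1 / ‖X x‖)) := by ring
          _ ≤ _ := mul_le_mul_of_nonneg_left (mul_le_mul_of_nonneg_left h9 hL.le) hμ.le
      rw [k1]
      have k5 : (1 + (C + μ * L) / c) / rho m q x = 1 / rho m q x + C * (1 / (c * rho m q x)) +
          μ * (L * (1 / (c * rho m q x))) := by
        field_simp
        ring
      rw [k5]
      linarith
    have h11 : ‖Y x‖ ^ 2 ≤ (CY / √(rho m q x)) ^ 2 := by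
      rw [div_pow, Real.sq_sqrt h7.le, hCY, Real.sq_sqrt (by positivity)]
      have k1 : 2 / ν * (1 + (C + μ * L) / c) / rho m q x = 2 / ν * ((1 + (C + μ * L) / c) / rho m q x) := by
        ring
      rw [k1]
      calc ‖Y x‖ ^ 2 = 2 / ν * (ν * ‖Y x‖ ^ 2 / 2) := by field_simp
        _ ≤ _ := mul_le_mul_of_nonneg_left h10 (by positivity)
    have h12 : ‖Y x‖ ≤ CY / √(rho m q x) := by
      apply le_of_sq_le_sq h11
      positivity
    refine h12.trans ?_
    rw [div_eq_mul_inv]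
    apply mul_le_mul_of_nonneg_left _ hCY0
    rw [inv_eq_one_div]
    have h13 := Real.sqrt_pos.2 (ρ0 a)
    have h14 := hsq x hx
    calc 1 / √(rho m q x) ≤ 1 / (√(rho m q a) / 2) := one_div_le_one_div_of_le (by positivity) h14
      _ = 2 / √(rho m q a) := by field_simp
  have hXmv : ∀ x ∈ Icc a b, ∀ y ∈ Icc a b, x ≤ y → ‖X y - X x‖ ≤ CY * (2 / √(rho m q a)) * (y - x) := by
    intro x hx y hy hxy
    have h := Convex.norm_image_sub_le_of_norm_hasDerivWithin_le (f := X)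
      (f' := Y) (s := Icc a b) (C := CY * (2 / √(rho m q a))) (x := x) (y := y)
      (fun t _ => (hp.two.dX t).hasDerivWithinAt) (fun t ht => hY t ht)
      (convex_Icc a b) hx hy
    rw [Real.norm_eq_abs, abs_of_nonneg (sub_nonneg.2 hxy)] at h
    exact h
  -- CNT
  have hcnt := hN m p μ ν M C L κ c E q v r w X Y F G P hp n τ lab ha hDκ Ψ
    (fun x => 8 * CY / c / f a * x) (fun x y h1 h2 h3 => hΨ2 x y h1 h2 h3) (by
      intro x y h1 h2 h3
      have hx : x ∈ Icc a b := ⟨h1, h2.trans h3⟩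
      have hy : y ∈ Icc a b := ⟨h1.trans h2, h3⟩
      have k1 := unit_sub (X x) (X y) (norm_pos_iff.1 (hXpos x hx)) (norm_pos_iff.1 (hXpos y hy))
      have k2 := hXmv x hx y hy h2
      have k3 := hXlo x hx
      have k4 := hρx x hx
      have k5 : c * (rho m q a / 2) ≤ ‖X x‖ := (mul_le_mul_of_nonneg_left k4 hc.le).trans k3
      have hρa := ρ0 a
      have hsa := Real.sqrt_pos.2 (ρ0 a)
      calc ‖X y / ‖X y‖ - X x / ‖X x‖‖ ≤ 2 * ‖X y - X x‖ / ‖X x‖ := k1
        _ ≤ 2 * (CY * (2 / √(rho m q a)) * (y - x)) / (c * (rho m q a / 2)) := by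
            apply div_le_div₀ _ (by linarith) (by positivity) k5
            have : 0 ≤ y - x := by linarith
            positivity
        _ = 8 * CY / c / f a * (y - x) := by
            rw [hf]
            field_simp
            ring
        _ = 8 * CY / c / f a * y - 8 * CY / c / f a * x := by ring)
  have hΘb : 8 * CY / c / f a * b - 8 * CY / c / f a * a ≤ 8 * CY / c := by
    have h2 : 8 * CY / c / f a * b - 8 * CY / c / f a * a = 8 * CY / c * ((b - a) / f a) := by ring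
    rw [h2]
    have h3 : (b - a) / f a ≤ 1 := by
      rw [div_le_one hfa]
      nlinarith
    calc 8 * CY / c * ((b - a) / f a) ≤ 8 * CY / c * 1 := mul_le_mul_of_nonneg_left h3 (by positivity)
      _ = 8 * CY / c := mul_one _
  have h1 : (n : ℝ) ≤ K := by
    have h0 : (0 : ℝ) ≤ n := Nat.cast_nonneg n
    linarith
  exact_mod_cast h1

theorem t_EXN (hB : S_BAS) (hP : S_PAIR) (hU : S_EXU) (hD : S_DUR) (hN : S_CNT) : S_EXN := by
  intro m hm V hV
  choose δ₀ h0 h1 using fun p => exn_one hB hP hU hD hN m hm V hV p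
  refine ⟨min (δ₀ 0) (min (δ₀ 1) (δ₀ 2)), lt_min (h0 0) (lt_min (h0 1) (h0 2)), fun δ hδ hδ0 => ?_⟩
  have h2 : ∀ p, δ ≤ δ₀ p := by
    intro p
    fin_cases p
    · exact hδ0.trans (min_le_left _ _)
    · exact hδ0.trans ((min_le_right _ _).trans (min_le_left _ _))
    · exact hδ0.trans ((min_le_right _ _).trans (min_le_right _ _))
  choose K hK using fun p => h1 p δ hδ (h2 p)
  refine ⟨max (K 0) (max (K 1) (K 2)), fun E q v hs hu hsp n τ lab ha hn p hcl => ?_⟩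
  have h3 := hK p E q v hs hu hsp n τ lab ha hn hcl
  have h4 : K p ≤ max (K 0) (max (K 1) (K 2)) := by
    fin_cases p <;> simp
  exact h3.trans h4

end Pool.Agent.J4H73.TB
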