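import Pool.Agent.J4H12.TB.Stm

set_option autoImplicit false

/-!
# Project TB: (MAIN)
-/

namespace Pool.Agent.J4H73.TB

open Filter Topology Set Pool.Agent.J4H12.TB

/-- a set of natural numbers with small gaps between its elements is small -/
theorem card_le (S : Finset ℕ) (N : ℕ) (h : ∀ i ∈ S, ∀ j ∈ S, i ≤ j → j - i ≤ N) : S.card ≤ N + 1 := by
  rcases S.eq_empty_or_nonempty with rfl | hS
  · simp
  · have h1 : S ⊆ Finset.Icc (S.min' hS) (S.min' hS + N) := by
      intro j hj
      have h2 := S.min'_le j hj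
      have h3 := h _ (S.min'_mem hS) j hj h2
      rw [Finset.mem_Icc]
      omega
    have h2 := Finset.card_le_card h1
    rw [Nat.card_Icc] at h2
    omega

theorem Alt_blk {q : Fin 3 → ℝ → ℂ} {n : ℕ} {τ : ℕ → ℝ} {lab : ℕ → Fin 3} (h : Alt q n τ lab) (i j : ℕ)
    (hij : i ≤ j) (hj : j ≤ n) : Alt q (j - i) (fun k => τ (i + k)) (fun k => lab (i + k)) := by
  obtain ⟨h1, h2, h3⟩ := h
  refine ⟨fun k hk => ?_, fun k hk => ?_, fun k hk => ?_⟩
  · exact h1 (i + k) (by omega)
  · exact h2 (i + k) (by omega)
  · exact h3 (i + k) (by omega)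

theorem Alt_mono {q : Fin 3 → ℝ → ℂ} {n : ℕ} {τ : ℕ → ℝ} {lab : ℕ → Fin 3} (h : Alt q n τ lab) (i j : ℕ)
    (hij : i ≤ j) (hj : j ≤ n) : τ i ≤ τ j := by
  obtain ⟨h1, -, -⟩ := h
  induction j, hij using Nat.le_induction with
  | base => exact le_rfl
  | succ k hk ih => exact (ih (by omega)).trans (h1 k (by omega)).le

theorem t_MAIN (hB : S_BAS) (hT : S_SHT) (hR : S_REV) (hS : S_SCL) (hV : S_SPD) (hN : S_NEAR)
    (hF : S_FAR) : S_MAIN := by
  classical
  intro m hm
  obtain ⟨V, hV0, hV1⟩ := hV m hm
  obtain ⟨N1, hN1⟩ := hN m hm V hV0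
  obtain ⟨N2, hN2⟩ := hF m hm V hV0
  obtain ⟨C, hC1, hBas⟩ := hB m hm
  refine ⟨2 * N2 + N1 + 2, ?_⟩
  -- energy one
  have key : ∀ (q v : Fin 3 → ℝ → ℂ), Sol m 1 q v → Unb q →
      ∀ (n : ℕ) (τ : ℕ → ℝ) (lab : ℕ → Fin 3), Alt q n τ lab → n ≤ 2 * N2 + N1 + 2 := by
    intro q v hs hu n τ lab ha
    have hb := hBas 1 q v hs
    have hJm : Monotone (J m q v) := by
      apply monotone_of_deriv_nonneg
      · exact fun t => (hb.dJ t).differentiableAt
      · intro t
        rw [(hb.dJ t).deriv]
        have := hb.U0 t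
        positivity
    have hconv : ConvexOn ℝ univ (fun t => rho m q t ^ 2) := by
      apply Monotone.convexOn_univ_of_deriv
      · exact fun t => (hb.dsq t).differentiableAt
      · intro s t hst
        rw [(hb.dsq s).deriv, (hb.dsq t).deriv]
        linarith [hJm hst]
    -- the three classes of indices
    set S1 := (Finset.range (n + 1)).filter (fun i => rho m q (τ i) ≤ 1) with hS1
    set S2 := (Finset.range (n + 1)).filter (fun i => 1 ≤ rho m q (τ i) ∧ 0 ≤ J m q v (τ i)) with hS2
    set S3 := (Finset.range (n + 1)).filter (fun i => 1 ≤ rho m q (τ i) ∧ J m q v (τ i) ≤ 0) with hS3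
    have hcov : Finset.range (n + 1) ⊆ S1 ∪ (S2 ∪ S3) := by
      intro i hi
      rw [Finset.mem_union, Finset.mem_union, hS1, hS2, hS3, Finset.mem_filter, Finset.mem_filter,
        Finset.mem_filter]
      rcases le_total (rho m q (τ i)) 1 with h1 | h1
      · exact Or.inl ⟨hi, h1⟩
      · rcases le_total 0 (J m q v (τ i)) with h2 | h2
        · exact Or.inr (Or.inl ⟨hi, h1, h2⟩)
        · exact Or.inr (Or.inr ⟨hi, h1, h2⟩)
    have c1 : S1.card ≤ N1 + 1 := by
      apply card_le
      intro i hi j hj hij
      rw [hS1, Finset.mem_filter, Finset.mem_range] at hi hj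
      have hbl := Alt_blk ha i j hij (by omega)
      apply hN1 1 q v hs hu (hV1 1 q v hs hu) (j - i) _ _ hbl
      have e : i + (j - i) = j := by omega
      simp only [add_zero, e]
      intro x hx
      have h1 : rho m q x ^ 2 ≤ max (rho m q (τ i) ^ 2) (rho m q (τ j) ^ 2) :=
        hconv.le_max_of_mem_Icc (mem_univ _) (mem_univ _) hx
      have h2 : max (rho m q (τ i) ^ 2) (rho m q (τ j) ^ 2) ≤ 1 := by
        apply max_le
        · exact pow_le_one₀ (hb.rpos _).le hi.2
        · exact pow_le_one₀ (hb.rpos _).le hj.2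
      rw [one_mul]
      have h3 := hb.rpos x
      nlinarith
    have c2 : S2.card ≤ N2 + 1 := by
      apply card_le
      intro i hi j hj hij
      rw [hS2, Finset.mem_filter, Finset.mem_range] at hi hj
      have hbl := Alt_blk ha i j hij (by omega)
      have hs' := hT m 1 (τ i) q v hs
      have hu' : Unb (fun a t => q a (t + τ i)) := by
        intro a
        constructor
        · intro T B
          obtain ⟨t, ht1, ht2⟩ := (hu a).1 (T + τ i) B
          refine ⟨t - τ i, by linarith, ?_⟩
          simpa [D] using ht2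
        · intro T B
          obtain ⟨t, ht1, ht2⟩ := (hu a).2 (T + τ i) B
          refine ⟨t - τ i, by linarith, ?_⟩
          simpa [D] using ht2
      apply hN2 _ _ hs' hu' (hV1 1 _ _ hs' hu') ?_ ?_ (j - i) (fun k => τ (i + k) - τ i) (fun k => lab (i + k))
      · obtain ⟨h1, h2, h3⟩ := hbl
        refine ⟨fun k hk => ?_, fun k hk => ?_, h3⟩
        · have := h1 k hk
          simp only at this ⊢
          linarith
        · have := h2 k hk
          simpa [Ecl] using this
      · simp
      · have := hi.2.2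
        simpa [J] using this
      · have := hi.2.1
        simpa [rho] using this
    have c3 : S3.card ≤ N2 + 1 := by
      apply card_le
      intro i hi j hj hij
      rw [hS3, Finset.mem_filter, Finset.mem_range] at hi hj
      obtain ⟨hr1, hr2⟩ := hR m 1 q v hs
      have hs' := hT m 1 (-τ j) _ _ hr1
      have hu' : Unb (fun a t => q a (-(t + -τ j))) := by
        intro a
        constructor
        · intro T B
          obtain ⟨t, ht1, ht2⟩ := (hu a).2 (τ j - T) B
          refine ⟨τ j - t, by linarith, ?_⟩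
          have e : -(τ j - t + -τ j) = t := by ring
          simpa [D, e] using ht2
        · intro T B
          obtain ⟨t, ht1, ht2⟩ := (hu a).1 (τ j - T) B
          refine ⟨τ j - t, by linarith, ?_⟩
          have e : -(τ j - t + -τ j) = t := by ring
          simpa [D, e] using ht2
      apply hN2 _ _ hs' hu' (hV1 1 _ _ hs' hu') ?_ ?_ (j - i) (fun k => τ j - τ (j - k)) (fun k => lab (j - k))
      · obtain ⟨h1, h2, h3⟩ := ha
        refine ⟨fun k hk => ?_, fun k hk => ?_, fun k hk => ?_⟩
        · have := h1 (j - (k + 1)) (by omega)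
          have e : j - (k + 1) + 1 = j - k := by omega
          rw [e] at this
          simp only
          linarith
        · have := h2 (j - k) (by omega)
          have e : -(τ j - τ (j - k) + -τ j) = τ (j - k) := by ring
          simpa [Ecl, e] using this
        · have := h3 (j - (k + 1)) (by omega)
          have e : j - (k + 1) + 1 = j - k := by omega
          rw [e] at this
          simp only
          exact this.symm
      · simp
      · have h1 := hr2 (-τ j)
        rw [neg_neg] at h1
        have h2 := hj.2.2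
        have h3 : J m (fun a t => q a (-(t + -τ j))) (fun a t => -v a (-(t + -τ j))) 0 =
            J m (fun a t => q a (-t)) (fun a t => -v a (-t)) (-τ j) := by
          simp [J]
        rw [h3, h1]
        linarith
      · have := hj.2.1
        simpa [rho] using this
    have h1 := Finset.card_le_card hcov
    have h2 := Finset.card_union_le S1 (S2 ∪ S3)
    have h3 := Finset.card_union_le S2 S3
    rw [Finset.card_range] at h1
    omega
  -- scaling
  intro E q v hs hu n τ lab ha
  have hE := hs.Epos
  set k : ℝ := 1 / √E with hk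
  have hk0 : 0 < k := by positivity
  have hk2 : k ^ 2 * E = 1 := by
    rw [hk, div_pow, one_pow, Real.sq_sqrt hE.le]
    field_simp
  obtain ⟨h1, h2⟩ := hS m E k q v hs hk0
  rw [hk2] at h1
  have hk3 : 0 < k ^ 3 := by positivity
  refine key _ _ h1 ?_ n (fun i => τ i / k ^ 3) lab ?_
  · intro a
    constructor
    · intro T B
      obtain ⟨t, ht1, ht2⟩ := (hu a).1 (k ^ 3 * T) (k ^ 2 * B)
      refine ⟨t / k ^ 3, ?_, ?_⟩
      · rw [le_div_iff₀ hk3]
        linarith
      · rw [(h2 (t / k ^ 3)).2.2.2.1 a]
        have e : k ^ 3 * (t / k ^ 3) = t := by field_simp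
        rw [e]
        have h4 : 0 < k ^ 2 := by positivity
        rw [inv_mul_eq_div, lt_div_iff₀ h4]
        linarith
    · intro T B
      obtain ⟨t, ht1, ht2⟩ := (hu a).2 (k ^ 3 * T) (k ^ 2 * B)
      refine ⟨t / k ^ 3, ?_, ?_⟩
      · rw [div_le_iff₀ hk3]
        linarith
      · rw [(h2 (t / k ^ 3)).2.2.2.1 a]
        have e : k ^ 3 * (t / k ^ 3) = t := by field_simp
        rw [e]
        have h4 : 0 < k ^ 2 := by positivity
        rw [inv_mul_eq_div, lt_div_iff₀ h4]
        linarith
  · obtain ⟨a1, a2, a3⟩ := ha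
    refine ⟨fun i hi => ?_, fun i hi => ?_, a3⟩
    · simp only
      exact div_lt_div_of_pos_right (a1 i hi) hk3
    · rw [(h2 (τ i / k ^ 3)).2.2.2.2.2.2 (lab i)]
      have e : k ^ 3 * (τ i / k ^ 3) = τ i := by field_simp
      rw [e]
      exact a2 i hi

end Pool.Agent.J4H73.TB
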